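import Pool.Agent.W488.IW.Stm
import Pool.Agent.Helper366.IV.CP

set_option autoImplicit false

open MeasureTheory Metric Set Filter Topology Complex
open scoped ContDiff Convolution

namespace Pool.Agent.W883.IW.Pv

open Pool.Agent.W488.IW

/-- `e^{iθ}` -/
noncomputable def e (θ : ℝ) : ℂ := exp (θ * I)

theorem e_cont : Continuous e := by unfold e; fun_prop

theorem e_norm (θ : ℝ) : ‖e θ‖ = 1 := norm_exp_ofReal_mul_I θ

theorem e_ne (θ : ℝ) : e θ ≠ 0 := exp_ne_zero _

theorem re_norm {r : ℝ} (hr : 0 ≤ r) (θ : ℝ) : ‖(r : ℂ) * e θ‖ = r := by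
  rw [norm_mul, e_norm, mul_one, norm_real, Real.norm_of_nonneg hr]

theorem e_der (θ : ℝ) : HasDerivAt e (I * e θ) θ := by
  have h4 : HasDerivAt (fun θ : ℝ => (θ : ℂ) * I) I θ := by
    have := (Complex.ofRealCLM.hasDerivAt (x := θ)).mul_const I
    simpa using this
  have := h4.cexp
  rw [mul_comm]
  exact this

theorem e_per : e (-Real.pi) = e Real.pi := by
  unfold e
  push_cast
  rw [neg_mul, Complex.exp_neg, Complex.exp_pi_mul_I]; norm_num

theorem lin_eq (L : ℂ →L[ℝ] ℂ) (v : ℂ) : L v = (v.re : ℂ) * L 1 + (v.im : ℂ) * L I := by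
  have h : v = v.re • (1 : ℂ) + v.im • I := by
    simp
  conv_lhs => rw [h]
  rw [map_add, map_smul, map_smul, real_smul, real_smul]

theorem lin_polar (L : ℂ →L[ℝ] ℂ) (v : ℂ) :
    L v - I * L (I * v) = v * (L 1 - I * L I) := by
  rw [lin_eq L v, lin_eq L (I * v)]
  have h1 : (I * v).re = -v.im := by simp
  have h2 : (I * v).im = v.re := by simp
  rw [h1, h2]
  have h3 : v = (v.re : ℂ) + (v.im : ℂ) * I := (re_add_im v).symm
  conv_rhs => rw [h3]
  push_cast
  linear_combination ((v.im : ℂ) * L I) * I_sq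

/-- polar coordinates outside a disc -/
theorem polar_out (F : ℂ → ℂ) {ε R : ℝ} (hε : 0 < ε) (hR : ε ≤ R)
    (hF : ∀ w, R ≤ ‖w‖ → F w = 0) (hc : ContinuousOn F {w | ε ≤ ‖w‖}) :
    ∫ w in {w | ε < ‖w‖}, F w
      = ∫ r in ε..R, ∫ θ in (-Real.pi)..Real.pi, (r : ℂ) * F (r * e θ) := by
  have hm : MeasurableSet {w : ℂ | ε < ‖w‖} := measurableSet_lt measurable_const measurable_norm
  rw [← integral_indicator hm, ← Complex.integral_comp_polarCoord_symm]
  set G : ℝ × ℝ → ℂ := fun p => (p.1 : ℂ) * F (p.1 * e p.2) with hG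
  have hps : ∀ p : ℝ × ℝ, Complex.polarCoord.symm p = p.1 * e p.2 := by
    intro p
    rw [Complex.polarCoord_symm_apply, e, exp_mul_I, ofReal_cos, ofReal_sin]
  have hGc : ContinuousOn G (Icc ε R ×ˢ Icc (-Real.pi) Real.pi) := by
    apply ContinuousOn.mul (by fun_prop)
    refine hc.comp ?_ ?_
    · have := e_cont
      fun_prop
    · rintro ⟨r, θ⟩ ⟨h1, h2⟩
      show ε ≤ ‖(r : ℂ) * e θ‖
      rw [re_norm (hε.le.trans h1.1)]
      exact h1.1
  have hint : IntegrableOn G (Ioc ε R ×ˢ Ioc (-Real.pi) Real.pi) (volume.prod volume) := by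
    have h1 := hGc.integrableOn_compact (isCompact_Icc.prod isCompact_Icc) (μ := volume.prod volume)
    exact h1.mono_set (prod_mono Ioc_subset_Icc_self Ioc_subset_Icc_self)
  have hint2 : IntegrableOn G (Ioc ε R ×ˢ Ioo (-Real.pi) Real.pi) (volume.prod volume) :=
    hint.mono_set (prod_mono Subset.rfl Ioo_subset_Ioc_self)
  have e1 : ∫ p in polarCoord.target, p.1 • ({w | ε < ‖w‖}.indicator F (Complex.polarCoord.symm p))
      = ∫ p in Ioc ε R ×ˢ Ioo (-Real.pi) Real.pi, G p := by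
    have hsub : Ioc ε R ×ˢ Ioo (-Real.pi) Real.pi ⊆ polarCoord.target := by
      rw [polarCoord_target]
      exact prod_mono (fun r hr => hε.trans hr.1) Subset.rfl
    rw [setIntegral_eq_of_subset_of_forall_sdiff_eq_zero polarCoord.open_target.measurableSet hsub]
    · apply setIntegral_congr_fun (measurableSet_Ioc.prod measurableSet_Ioo)
      rintro ⟨r, θ⟩ ⟨h1, h2⟩
      have h1 : ε < r ∧ r ≤ R := h1
      simp only [hps, hG]
      rw [indicator_of_mem, real_smul]
      show ε < ‖(r : ℂ) * e θ‖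
      rw [re_norm (hε.le.trans h1.1.le)]
      exact h1.1
    · rintro ⟨r, θ⟩ ⟨h1, h2⟩
      rw [polarCoord_target] at h1
      have h3 : 0 < r := h1.1
      simp only [hps]
      by_cases h4 : ε < r
      · have h5 : R < r := by
          by_contra h6
          push Not at h6
          exact h2 ⟨⟨h4, h6⟩, h1.2⟩
        rw [indicator_of_mem, hF, smul_zero]
        · rw [re_norm h3.le]; exact h5.le
        · show ε < ‖(r : ℂ) * e θ‖
          rw [re_norm h3.le]
          exact h4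
      · rw [indicator_of_notMem, smul_zero]
        show ¬ ε < ‖(r : ℂ) * e θ‖
        rw [re_norm h3.le]
        exact h4
  rw [e1, intervalIntegral.integral_of_le hR]
  have e2 := setIntegral_prod (μ := volume) (ν := volume) G hint2
  rw [show (volume : Measure (ℝ × ℝ)) = volume.prod volume from rfl, e2]
  apply setIntegral_congr_fun measurableSet_Ioc
  intro r hr
  simp only [hG]
  rw [intervalIntegral.integral_of_le (by linarith [Real.pi_pos]), integral_Ioc_eq_integral_Ioo]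

section
variable {ψ : ℂ → ℂ}

theorem inner_zero (h : ContDiff ℝ 1 ψ) (r : ℝ) :
    ∫ θ in (-Real.pi)..Real.pi, ((r : ℂ) * ((e θ)⁻¹ ^ 2 * fderiv ℝ ψ (r * e θ) (I * e θ))
      - 2 * I * ((e θ)⁻¹ ^ 2 * ψ (r * e θ))) = 0 := by
  have hc := e_cont
  have hd : ∀ θ : ℝ, HasDerivAt (fun θ : ℝ => (e θ)⁻¹ ^ 2 * ψ (r * e θ))
      ((r : ℂ) * ((e θ)⁻¹ ^ 2 * fderiv ℝ ψ (r * e θ) (I * e θ))
      - 2 * I * ((e θ)⁻¹ ^ 2 * ψ (r * e θ))) θ := by
    intro θ
    have h1 : HasDerivAt (fun θ : ℝ => (r : ℂ) * e θ) (r * (I * e θ)) θ := (e_der θ).const_mul _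
    have h2 : HasFDerivAt ψ (fderiv ℝ ψ (r * e θ)) (r * e θ) :=
      ((h.differentiable (by norm_num)) _).hasFDerivAt
    have h3 := h2.comp_hasDerivAt θ h1
    have h4 : (r : ℂ) * (I * e θ) = r • (I * e θ) := by rw [real_smul]
    rw [h4, map_smul, real_smul] at h3
    have h5 : HasDerivAt (fun θ : ℝ => (e θ)⁻¹ ^ 2) (- (2 * I) * (e θ)⁻¹ ^ 2) θ := by
      have := ((e_der θ).inv (e_ne θ)).pow 2
      refine this.congr_deriv ?_
      have h0 := e_ne θ
      simp only [Pi.inv_apply]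
      push_cast
      norm_num
      field_simp
    have h6 := h5.mul h3
    refine h6.congr_deriv ?_
    simp only [Function.comp]
    ring
  have hcf : Continuous (fderiv ℝ ψ) := h.continuous_fderiv (by norm_num)
  have hinv : Continuous fun θ => (e θ)⁻¹ := hc.inv₀ e_ne
  have hψ : Continuous ψ := h.continuous
  have hcont : Continuous (fun θ : ℝ => ((r : ℂ) * ((e θ)⁻¹ ^ 2 * fderiv ℝ ψ (r * e θ) (I * e θ))
      - 2 * I * ((e θ)⁻¹ ^ 2 * ψ (r * e θ)))) := by
    have h1 : Continuous (fun θ : ℝ => fderiv ℝ ψ (r * e θ) (I * e θ)) :=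
      (hcf.comp (by fun_prop)).clm_apply (by fun_prop)
    fun_prop
  rw [intervalIntegral.integral_eq_sub_of_hasDerivAt (fun θ _ => hd θ)
    (hcont.intervalIntegrable _ _), e_per, sub_self]

theorem radial (h : ContDiff ℝ 1 ψ) {ε R : ℝ} (θ : ℝ) :
    ∫ r in ε..R, fderiv ℝ ψ (r * e θ) (e θ) = ψ (R * e θ) - ψ (ε * e θ) := by
  have hd : ∀ r : ℝ, HasDerivAt (fun r : ℝ => ψ (r * e θ))
      (fderiv ℝ ψ (r * e θ) (e θ)) r := by
    intro r
    have h1 : HasDerivAt (fun r : ℝ => (r : ℂ) * e θ) (e θ) r := by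
      have := (Complex.ofRealCLM.hasDerivAt (x := r)).mul_const (e θ)
      simpa using this
    have h2 : HasFDerivAt ψ (fderiv ℝ ψ (r * e θ)) (r * e θ) :=
      ((h.differentiable (by norm_num)) _).hasFDerivAt
    exact h2.comp_hasDerivAt r h1
  have hcont : Continuous (fun r : ℝ => fderiv ℝ ψ (r * e θ) (e θ)) := by
    have h3 : Continuous (fderiv ℝ ψ) := h.continuous_fderiv (by norm_num)
    exact (h3.comp (by fun_prop)).clm_apply continuous_const
  rw [intervalIntegral.integral_eq_sub_of_hasDerivAt (fun r _ => hd r) (hcont.intervalIntegrable _ _)]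

theorem annulus (h : ContDiff ℝ 1 ψ) {ε R : ℝ} (hε : 0 < ε) (hR : ε ≤ R)
    (hs : ∀ w, R ≤ ‖w‖ → ψ w = 0) (hs' : ∀ w, R ≤ ‖w‖ → fderiv ℝ ψ w = 0) :
    (∫ w in {w | ε < ‖w‖}, dz ψ w / w) - ∫ w in {w | ε < ‖w‖}, ψ w / w ^ 2
      = -(1 / 2) * ∫ θ in (-Real.pi)..Real.pi, (e θ)⁻¹ ^ 2 * ψ (ε * e θ) := by
  have hc := e_cont
  have hcf : Continuous (fderiv ℝ ψ) := h.continuous_fderiv (by norm_num)
  have hinv : Continuous fun θ => (e θ)⁻¹ := hc.inv₀ e_ne
  have hψ : Continuous ψ := h.continuous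
  have hne : ∀ w : ℂ, w ∈ {w : ℂ | ε ≤ ‖w‖} → w ≠ 0 := by
    intro w hw h0
    rw [h0] at hw
    simp at hw
    linarith
  have hdz : Continuous (dz ψ) := by
    unfold dz
    fun_prop
  have hc1 : ContinuousOn (fun w => dz ψ w / w) {w | ε ≤ ‖w‖} :=
    hdz.continuousOn.div continuousOn_id hne
  have hc2 : ContinuousOn (fun w => ψ w / w ^ 2) {w | ε ≤ ‖w‖} :=
    hψ.continuousOn.div (by fun_prop) (fun w hw => pow_ne_zero 2 (hne w hw))
  rw [polar_out _ hε hR (fun w hw => by simp [dz, hs' w hw]) hc1,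
    polar_out _ hε hR (fun w hw => by simp [hs w hw]) hc2]
  -- continuous integrands on the rectangle
  have hr0 : ∀ r ∈ uIcc ε R, (r : ℂ) ≠ 0 := by
    intro r hr
    rw [uIcc_of_le hR] at hr
    exact_mod_cast (hε.trans_le hr.1).ne'
  have e1 : ∀ r ∈ uIcc ε R, ∫ θ in (-Real.pi)..Real.pi, (r : ℂ) * (dz ψ (r * e θ) / (r * e θ))
      = (∫ θ in (-Real.pi)..Real.pi, (1 / 2) * ((e θ)⁻¹ ^ 2 * fderiv ℝ ψ (r * e θ) (e θ)))
        + ∫ θ in (-Real.pi)..Real.pi, (r : ℂ) * (ψ (r * e θ) / (r * e θ) ^ 2) := by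
    intro r hr
    have hr1 := hr0 r hr
    have h1 : Continuous (fun θ : ℝ => fderiv ℝ ψ (r * e θ) (I * e θ)) :=
      (hcf.comp (by fun_prop)).clm_apply (by fun_prop)
    have h2 : Continuous (fun θ : ℝ => fderiv ℝ ψ (r * e θ) (e θ)) :=
      (hcf.comp (by fun_prop)).clm_apply (by fun_prop)
    have h3 := inner_zero h r
    have i1 : IntervalIntegrable (fun θ : ℝ => (1 / 2) * ((e θ)⁻¹ ^ 2 * fderiv ℝ ψ (r * e θ) (e θ)))
        volume (-Real.pi) Real.pi := Continuous.intervalIntegrable (by fun_prop) _ _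
    have i2 : IntervalIntegrable (fun θ : ℝ => (r : ℂ)⁻¹ * ((e θ)⁻¹ ^ 2 * ψ (r * e θ)))
        volume (-Real.pi) Real.pi := Continuous.intervalIntegrable (by fun_prop) _ _
    have i3 : IntervalIntegrable (fun θ : ℝ => (-(I / 2) * (r : ℂ)⁻¹) *
        ((r : ℂ) * ((e θ)⁻¹ ^ 2 * fderiv ℝ ψ (r * e θ) (I * e θ))
          - 2 * I * ((e θ)⁻¹ ^ 2 * ψ (r * e θ))))
        volume (-Real.pi) Real.pi := Continuous.intervalIntegrable (by fun_prop) _ _
    have h4 : ∀ θ, (r : ℂ) * (ψ (r * e θ) / (r * e θ) ^ 2)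
        = (r : ℂ)⁻¹ * ((e θ)⁻¹ ^ 2 * ψ (r * e θ)) := by
      intro θ
      have := e_ne θ
      field_simp
    have h5 : ∀ θ, (r : ℂ) * (dz ψ (r * e θ) / (r * e θ))
        = (1 / 2) * ((e θ)⁻¹ ^ 2 * fderiv ℝ ψ (r * e θ) (e θ))
          + (r : ℂ)⁻¹ * ((e θ)⁻¹ ^ 2 * ψ (r * e θ))
          + (-(I / 2) * (r : ℂ)⁻¹) *
            ((r : ℂ) * ((e θ)⁻¹ ^ 2 * fderiv ℝ ψ (r * e θ) (I * e θ))
            - 2 * I * ((e θ)⁻¹ ^ 2 * ψ (r * e θ))) := by
      intro θ
      have h0 := e_ne θ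
      have h6 := lin_polar (fderiv ℝ ψ (r * e θ)) (e θ)
      have h7 : dz ψ (r * e θ) = (1 / 2) * ((e θ)⁻¹ * (fderiv ℝ ψ (r * e θ) (e θ)
          - I * fderiv ℝ ψ (r * e θ) (I * e θ))) := by
        rw [h6]
        unfold dz
        field_simp
      rw [h7]
      field_simp
      linear_combination (-2 * ψ (r * e θ)) * I_sq
    simp_rw [h4, h5]
    rw [intervalIntegral.integral_add (i1.add i2) i3, intervalIntegral.integral_add i1 i2,
      intervalIntegral.integral_const_mul (-(I / 2) * (r : ℂ)⁻¹), h3, mul_zero, add_zero]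
  rw [intervalIntegral.integral_congr e1]
  -- joint continuity
  have c1 : Continuous (fun r : ℝ => ∫ θ in (-Real.pi)..Real.pi,
      (1 / 2) * ((e θ)⁻¹ ^ 2 * fderiv ℝ ψ (r * e θ) (e θ))) := by
    apply intervalIntegral.continuous_parametric_intervalIntegral_of_continuous'
    have : Continuous (fun p : ℝ × ℝ => fderiv ℝ ψ (p.1 * e p.2) (e p.2)) :=
      (hcf.comp (by fun_prop)).clm_apply (by fun_prop)
    have h2 : Continuous (fun p : ℝ × ℝ => (e p.2)⁻¹) := hinv.comp continuous_snd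
    exact continuous_const.mul ((h2.pow 2).mul this)
  have c2 : ContinuousOn (fun r : ℝ => ∫ θ in (-Real.pi)..Real.pi,
      (r : ℂ) * (ψ (r * e θ) / (r * e θ) ^ 2)) (uIcc ε R) := by
    have c3 : Continuous (fun r : ℝ => ∫ θ in (-Real.pi)..Real.pi, ((e θ)⁻¹ ^ 2 * ψ (r * e θ))) := by
      apply intervalIntegral.continuous_parametric_intervalIntegral_of_continuous'
      have : Continuous (fun p : ℝ × ℝ => ψ (p.1 * e p.2)) := by fun_prop
      have h2 : Continuous (fun p : ℝ × ℝ => (e p.2)⁻¹) := hinv.comp continuous_snd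
      exact (h2.pow 2).mul this
    have c4 : ContinuousOn (fun r : ℝ => (r : ℂ)⁻¹ * ∫ θ in (-Real.pi)..Real.pi,
        ((e θ)⁻¹ ^ 2 * ψ (r * e θ))) (uIcc ε R) :=
      (ContinuousOn.inv₀ (by fun_prop) hr0).mul c3.continuousOn
    refine c4.congr ?_
    intro r hr
    simp only
    rw [← intervalIntegral.integral_const_mul]
    apply intervalIntegral.integral_congr
    intro θ _
    have := e_ne θ
    have := hr0 r hr
    simp only
    field_simp
  rw [intervalIntegral.integral_add (c1.intervalIntegrable _ _) c2.intervalIntegrable,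
    add_sub_cancel_right]
  -- swap
  have sw : ∫ r in ε..R, ∫ θ in (-Real.pi)..Real.pi,
      (1 / 2) * ((e θ)⁻¹ ^ 2 * fderiv ℝ ψ (r * e θ) (e θ))
      = ∫ θ in (-Real.pi)..Real.pi, ∫ r in ε..R,
      (1 / 2) * ((e θ)⁻¹ ^ 2 * fderiv ℝ ψ (r * e θ) (e θ)) := by
    apply MeasureTheory.intervalIntegral_intervalIntegral_swap
    have : Continuous (fun p : ℝ × ℝ => fderiv ℝ ψ (p.1 * e p.2) (e p.2)) :=
      (hcf.comp (by fun_prop)).clm_apply (by fun_prop)
    have h2 : Continuous (fun p : ℝ × ℝ => (e p.2)⁻¹) := hinv.comp continuous_snd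
    have h3 : Continuous (fun p : ℝ × ℝ =>
        (1 / 2) * ((e p.2)⁻¹ ^ 2 * fderiv ℝ ψ (p.1 * e p.2) (e p.2))) :=
      continuous_const.mul ((h2.pow 2).mul this)
    have h4 : IntegrableOn (fun p : ℝ × ℝ =>
        (1 / 2) * ((e p.2)⁻¹ ^ 2 * fderiv ℝ ψ (p.1 * e p.2) (e p.2)))
        (uIcc ε R ×ˢ uIcc (-Real.pi) Real.pi) :=
      h3.continuousOn.integrableOn_compact (isCompact_uIcc.prod isCompact_uIcc)
    exact h4.mono_set (prod_mono uIoc_subset_uIcc uIoc_subset_uIcc)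
  rw [sw, ← intervalIntegral.integral_const_mul]
  apply intervalIntegral.integral_congr
  intro θ _
  simp only
  rw [intervalIntegral.integral_const_mul, intervalIntegral.integral_const_mul,
    radial h θ, hs (R * e θ) (by rw [re_norm (hε.le.trans hR)])]
  ring

end

/-! ### the Cauchy transform -/

/-- the Cauchy kernel -/
noncomputable def S (w : ℂ) : ℂ := (Real.pi : ℂ)⁻¹ * w⁻¹

theorem inv_li : LocallyIntegrable (fun w : ℂ => w⁻¹) := by
  have hb : ∀ R : ℝ, IntegrableOn (fun w : ℂ => w⁻¹) (ball 0 R) := by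
    intro R
    refine integrableOn_ball_of_norm_le_rpow (C := 1) (α := 1) ?_ ?_ ?_ ?_
    · rw [Complex.finrank_real_complex]; norm_num
    · rw [Complex.finrank_real_complex]; norm_num
    · filter_upwards with x
      rw [Real.rpow_neg_one, one_mul, norm_inv]
    · exact (measurable_inv : Measurable fun v : ℂ => v⁻¹).aestronglyMeasurable
  intro x
  refine ⟨ball 0 (‖x‖ + 1), isOpen_ball.mem_nhds (by simp), hb _⟩

theorem S_li : LocallyIntegrable S := by
  unfold S
  exact inv_li.smul (Real.pi : ℂ)⁻¹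

/-- the Cauchy transform -/
noncomputable def Cg (g : ℂ → ℂ) (z : ℂ) : ℂ := ∫ w, S w * g (z - w)

theorem Cg_conv (g : ℂ → ℂ) : Cg g = S ⋆[ContinuousLinearMap.mul ℝ ℂ, volume] g := by
  ext z
  rfl

section
variable {g : ℂ → ℂ}

theorem Cg_smooth (hg : ContDiff ℝ (⊤ : ℕ∞) g) (hc : HasCompactSupport g) :
    ContDiff ℝ (⊤ : ℕ∞) (Cg g) := by
  rw [Cg_conv]
  exact hc.contDiff_convolution_right _ S_li hg

theorem Cg_fderiv (hg : ContDiff ℝ 1 g) (hc : HasCompactSupport g) (z v : ℂ) :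
    fderiv ℝ (Cg g) z v = ∫ w, S w * fderiv ℝ g (z - w) v ∧
      Integrable (fun w => S w * fderiv ℝ g (z - w) v) := by
  have h1 : HasFDerivAt (Cg g)
      ((S ⋆[(ContinuousLinearMap.mul ℝ ℂ).precompR ℂ, volume] fderiv ℝ g) z) z := by
    rw [Cg_conv]
    exact hc.hasFDerivAt_convolution_right _ S_li hg z
  have hcf : Continuous (fderiv ℝ g) := hg.continuous_fderiv one_ne_zero
  have hint : Integrable (fun t => ((ContinuousLinearMap.mul ℝ ℂ).precompR ℂ (S t))
      (fderiv ℝ g (z - t))) := (hc.fderiv ℝ).convolutionExists_right _ S_li hcf z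
  refine ⟨?_, (ContinuousLinearMap.apply ℝ ℂ v).integrable_comp hint⟩
  rw [h1.fderiv]
  unfold convolution
  rw [ContinuousLinearMap.integral_apply hint]
  rfl

theorem Cg_dzb (hg : ContDiff ℝ 1 g) (hc : HasCompactSupport g) (z : ℂ) : dzb (Cg g) z = g z := by
  have h1 := Cg_fderiv hg hc z 1
  have h2 := Cg_fderiv hg hc z I
  unfold dzb
  rw [h1.1, h2.1, ← integral_const_mul I, ← integral_add h1.2 (h2.2.const_mul I),
    ← integral_const_mul]
  have h3 := Pool.Agent.Helper366.IV.cauchy_pompeiu g hg hc z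
  have h4 : ∀ w : ℂ, 1 / 2 * (S w * (fderiv ℝ g (z - w)) 1 + I * (S w * (fderiv ℝ g (z - w)) I))
      = (Real.pi : ℂ)⁻¹ * ((fderiv ℝ g (z - w) 1 + I * fderiv ℝ g (z - w) I) / 2 / w) := by
    intro w
    unfold S
    ring
  simp_rw [h4]
  have hpi : (Real.pi : ℂ) ≠ 0 := by exact_mod_cast Real.pi_ne_zero
  rw [integral_const_mul, h3]
  field_simp

theorem Cg_dz (hg : ContDiff ℝ 1 g) (hc : HasCompactSupport g) (z : ℂ) :
    dz (Cg g) z = ∫ w, S w * dz g (z - w) ∧ Integrable (fun w => S w * dz g (z - w)) := by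
  have h1 := Cg_fderiv hg hc z 1
  have h2 := Cg_fderiv hg hc z I
  have h4 : ∀ w : ℂ, S w * dz g (z - w) =
      1 / 2 * (S w * (fderiv ℝ g (z - w)) 1 - I * (S w * (fderiv ℝ g (z - w)) I)) := by
    intro w
    unfold dz
    ring
  constructor
  · simp_rw [h4]
    unfold dz
    rw [h1.1, h2.1, ← integral_const_mul I, ← integral_sub h1.2 (h2.2.const_mul I),
      ← integral_const_mul]
  · simp_rw [h4]
    exact (h1.2.sub (h2.2.const_mul I)).const_mul _

theorem dz_comp (hg : ContDiff ℝ 1 g) (x w : ℂ) : dz (fun w => g (x - w)) w = - dz g (x - w) := by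
  have h3 : HasFDerivAt g (fderiv ℝ g (x - w)) (x - w) :=
    (hg.differentiable one_ne_zero _).hasFDerivAt
  have h4 : HasFDerivAt (fun w => x - w) (-ContinuousLinearMap.id ℝ ℂ) w := by
    exact (hasFDerivAt_id w).const_sub x
  have h5 : HasFDerivAt (fun w => g (x - w)) _ w := h3.comp w h4
  unfold dz
  rw [h5.fderiv]
  simp
  ring

theorem bdry (hg : Continuous g) :
    Tendsto (fun ε : ℝ => ∫ θ in (-Real.pi)..Real.pi, (e θ)⁻¹ ^ 2 * g (ε * e θ)) (𝓝[>] (0 : ℝ))
      (𝓝 0) := by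
  have hc := e_cont
  have hinv : Continuous fun θ => (e θ)⁻¹ := hc.inv₀ e_ne
  have c3 : Continuous (fun r : ℝ => ∫ θ in (-Real.pi)..Real.pi, ((e θ)⁻¹ ^ 2 * g (r * e θ))) := by
    apply intervalIntegral.continuous_parametric_intervalIntegral_of_continuous'
    have : Continuous (fun p : ℝ × ℝ => g (p.1 * e p.2)) := by fun_prop
    have h2 : Continuous (fun p : ℝ × ℝ => (e p.2)⁻¹) := hinv.comp continuous_snd
    exact (h2.pow 2).mul this
  have h1 := c3.tendsto 0
  have h2 : ∫ θ in (-Real.pi)..Real.pi, ((e θ)⁻¹ ^ 2 * g ((0 : ℝ) * e θ)) = 0 := by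
    have h3 := inner_zero (ψ := fun _ => (1 : ℂ)) contDiff_const 0
    simp only [ofReal_zero, zero_mul, mul_one, zero_sub] at h3
    have h4 : ∀ θ, (e θ)⁻¹ ^ 2 * g ((0 : ℝ) * e θ) = (g 0 / (-(2 * I))) * -(2 * I * (e θ)⁻¹ ^ 2) := by
      intro θ
      have : (2 * I : ℂ) ≠ 0 := by simp
      field_simp
      simp
    simp_rw [h4]
    rw [intervalIntegral.integral_const_mul, h3, mul_zero]
  rw [h2] at h1
  exact h1.mono_left nhdsWithin_le_nhds

theorem Cg_pv (hg : ContDiff ℝ (⊤ : ℕ∞) g) (hc : HasCompactSupport g) : IsPV g (dz (Cg g)) := by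
  intro x
  have hg1 : ContDiff ℝ 1 g := hg.of_le (by exact_mod_cast le_top)
  set ψ : ℂ → ℂ := fun w => g (x - w) with hψ
  have hψ1 : ContDiff ℝ 1 ψ := hg1.comp (by fun_prop)
  have hψc : HasCompactSupport ψ := hc.comp_homeomorph (Homeomorph.subLeft x)
  obtain ⟨R, hR, hs⟩ : ∃ R : ℝ, 0 < R ∧ ∀ z, R ≤ ‖z‖ → z ∉ tsupport ψ := by
    obtain ⟨R, hR, h1⟩ := hψc.isCompact.isBounded.exists_pos_norm_lt
    exact ⟨R, hR, fun z hz hz' => absurd (h1 z hz') (not_lt.2 hz)⟩
  have hs0 : ∀ z, R ≤ ‖z‖ → ψ z = 0 := fun z hz => image_eq_zero_of_notMem_tsupport (hs z hz)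
  have hsd : ∀ z, R ≤ ‖z‖ → fderiv ℝ ψ z = 0 := by
    intro z hz
    have h1 : z ∉ tsupport (fderiv ℝ ψ) := fun h2 => hs z hz (tsupport_fderiv_subset ℝ h2)
    exact image_eq_zero_of_notMem_tsupport h1
  obtain ⟨h1, h2⟩ := Cg_dz hg1 hc x
  have hpi : (Real.pi : ℂ) ≠ 0 := by exact_mod_cast Real.pi_ne_zero
  have hint : Integrable (fun w => dz ψ w / w) := by
    have h3 : (fun w => dz ψ w / w) = fun w => (-(Real.pi : ℂ)) * (S w * dz g (x - w)) := by
      funext w
      rw [hψ, dz_comp hg1]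
      unfold S
      field_simp
    rw [h3]
    exact h2.const_mul _
  have hval : dz (Cg g) x = -(1 / (Real.pi : ℂ)) * ∫ w, dz ψ w / w := by
    rw [h1, ← integral_const_mul]
    congr 1
    funext w
    rw [hψ, dz_comp hg1]
    unfold S
    ring
  have hm : ∀ ε : ℝ, MeasurableSet {w : ℂ | ε < ‖w‖} :=
    fun ε => measurableSet_lt measurable_const measurable_norm
  -- the truncated integrals
  have t1 : Tendsto (fun ε : ℝ => ∫ w in {w : ℂ | ε < ‖w‖}, dz ψ w / w) (𝓝[>] (0 : ℝ))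
      (𝓝 (∫ w, dz ψ w / w)) := by
    have h3 : ∀ ε : ℝ, ∫ w in {w : ℂ | ε < ‖w‖}, dz ψ w / w
        = ∫ w, {w : ℂ | ε < ‖w‖}.indicator (fun w => dz ψ w / w) w := by
      intro ε
      rw [integral_indicator (hm ε)]
    simp_rw [h3]
    apply tendsto_integral_filter_of_dominated_convergence (fun w => ‖dz ψ w / w‖)
    · exact Eventually.of_forall fun ε => hint.aestronglyMeasurable.indicator (hm ε)
    · exact Eventually.of_forall fun ε => Eventually.of_forall fun w => norm_indicator_le_norm_self _ _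
    · exact hint.norm
    · have h4 : ∀ᵐ w : ℂ, w ≠ 0 := by
        rw [ae_iff]
        simp
      filter_upwards [h4] with w hw
      apply tendsto_const_nhds.congr'
      have h5 : ∀ᶠ ε : ℝ in 𝓝[>] (0 : ℝ), ε < ‖w‖ :=
        nhdsWithin_le_nhds (eventually_lt_nhds (norm_pos_iff.2 hw))
      filter_upwards [h5] with ε hε
      rw [indicator_of_mem]
      exact hε
  have t2 := bdry hψ1.continuous
  have t3 : Tendsto (fun ε : ℝ => ∫ w in {w : ℂ | ε < ‖w‖}, ψ w / w ^ 2) (𝓝[>] (0 : ℝ))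
      (𝓝 (∫ w, dz ψ w / w)) := by
    have h6 := t1.sub (t2.const_mul (-(1 / 2 : ℂ)))
    rw [mul_zero, sub_zero] at h6
    refine h6.congr' ?_
    have h7 : ∀ᶠ ε : ℝ in 𝓝[>] (0 : ℝ), ε < R :=
      nhdsWithin_le_nhds (eventually_lt_nhds hR)
    filter_upwards [h7, self_mem_nhdsWithin] with ε h8 h9
    rw [← annulus hψ1 h9 h8.le hs0 hsd]
    ring
  rw [hval]
  refine (t3.const_mul (-(1 / (Real.pi : ℂ)))).congr ?_
  intro ε
  congr 1
  have hm2 : MeasurableSet {y : ℂ | ε < ‖x - y‖} :=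
    measurableSet_lt measurable_const (measurable_const.sub measurable_id).norm
  rw [← integral_indicator (hm ε), ← integral_indicator hm2, ← integral_sub_left_eq_self _ _ x]
  congr 1
  funext y
  by_cases hy : ε < ‖x - y‖
  · rw [indicator_of_mem (show x - y ∈ {w : ℂ | ε < ‖w‖} from hy),
      indicator_of_mem (show y ∈ {y : ℂ | ε < ‖x - y‖} from hy)]
    simp [hψ]
  · rw [indicator_of_notMem (show x - y ∉ {w : ℂ | ε < ‖w‖} from hy),
      indicator_of_notMem (show y ∉ {y : ℂ | ε < ‖x - y‖} from hy)]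

end

/-- bounded on a ball and at infinity -/
theorem bdd_of {F : ℂ → ℝ} (hF : Continuous F) {ρ C : ℝ} (h : ∀ z, ρ ≤ ‖z‖ → F z ≤ C) :
    ∃ C', ∀ z, F z ≤ C' := by
  obtain ⟨M, hM⟩ := (isCompact_closedBall (0 : ℂ) ρ).bddAbove_image hF.continuousOn
  refine ⟨max M C, fun z => ?_⟩
  rcases le_total ‖z‖ ρ with h1 | h1
  · exact (hM ⟨z, by simpa using h1, rfl⟩).trans (le_max_left _ _)
  · exact (h z h1).trans (le_max_right _ _)

theorem main : S_PV := by
  intro g hg hc
  have hg1 : ContDiff ℝ 1 g := hg.of_le (by exact_mod_cast le_top)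
  have hsm := Cg_smooth hg hc
  have hdzb := Cg_dzb hg1 hc
  have hpv := Cg_pv hg hc
  refine ⟨Cg g, hsm, hdzb, hpv, ?_⟩
  obtain ⟨R, hR, hs⟩ : ∃ R : ℝ, 0 < R ∧ ∀ z, R ≤ ‖z‖ → g z = 0 := by
    obtain ⟨R, hR, h1⟩ := hc.isCompact.isBounded.exists_pos_norm_lt
    exact ⟨R, hR, fun z hz => image_eq_zero_of_notMem_tsupport fun hz' =>
      absurd (h1 z hz') (not_lt.2 hz)⟩
  have hgi : Integrable g := hg.continuous.integrable_of_hasCompactSupport hc
  set A : ℝ := ∫ y, ‖g y‖ with hA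
  have hA0 : 0 ≤ A := integral_nonneg fun _ => norm_nonneg _
  have hpi := Real.pi_pos
  -- first bound
  have b1 : ∀ z : ℂ, 2 * R + 1 ≤ ‖z‖ → ‖Cg g z‖ * (1 + ‖z‖) ≤ Real.pi⁻¹ * 4 * A := by
    intro z hz
    have hz1 : 0 < ‖z‖ := by linarith
    have h1 : ‖Cg g z‖ ≤ Real.pi⁻¹ * (2 / ‖z‖) * A := by
      have h2 : Cg g z = ∫ y, S (z - y) * g y := by
        unfold Cg
        rw [← integral_sub_left_eq_self _ _ z]
        congr 1
        funext w
        simp
      rw [h2, hA, ← integral_const_mul]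
      apply norm_integral_le_of_norm_le (hgi.norm.const_mul _)
      filter_upwards with y
      rw [norm_mul]
      rcases le_total R ‖y‖ with h3 | h3
      · rw [hs y h3]; simp
      · apply mul_le_mul_of_nonneg_right _ (norm_nonneg _)
        unfold S
        rw [norm_mul, norm_inv, norm_inv, norm_real, Real.norm_of_nonneg hpi.le]
        apply mul_le_mul_of_nonneg_left _ (inv_nonneg.2 hpi.le)
        have h4 : ‖z‖ / 2 ≤ ‖z - y‖ := by
          have := norm_sub_norm_le z y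
          linarith
        calc ‖z - y‖⁻¹ ≤ (‖z‖ / 2)⁻¹ := inv_anti₀ (by linarith) h4
          _ = 2 / ‖z‖ := by rw [inv_div]
    calc ‖Cg g z‖ * (1 + ‖z‖) ≤ (Real.pi⁻¹ * (2 / ‖z‖) * A) * (2 * ‖z‖) := by
          apply mul_le_mul h1 (by linarith) (by positivity) (by positivity)
      _ = Real.pi⁻¹ * 4 * A := by
          field_simp
          ring
  have b2 : ∀ z : ℂ, 2 * R + 1 ≤ ‖z‖ → ‖fderiv ℝ (Cg g) z‖ * (1 + ‖z‖ ^ 2) ≤ Real.pi⁻¹ * 8 * A := by
    intro z hz
    have hz1 : 0 < ‖z‖ := by linarith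
    have h1 : ‖dz (Cg g) z‖ ≤ Real.pi⁻¹ * (4 / ‖z‖ ^ 2) * A := by
      apply le_of_tendsto (hpv z).norm
      filter_upwards with ε
      rw [norm_mul, norm_neg, norm_div, norm_one, norm_real, Real.norm_of_nonneg hpi.le, one_div,
        mul_assoc]
      apply mul_le_mul_of_nonneg_left _ (inv_nonneg.2 hpi.le)
      have hm : MeasurableSet {y : ℂ | ε < ‖z - y‖} := measurableSet_lt measurable_const
        (measurable_const.sub measurable_id).norm
      have h5 : ∫ y in {y : ℂ | ε < ‖z - y‖}, (4 / ‖z‖ ^ 2) * ‖g y‖ ≤ (4 / ‖z‖ ^ 2) * A := by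
        rw [hA, ← integral_const_mul]
        apply setIntegral_le_integral (hgi.norm.const_mul _)
        filter_upwards with y
        simp only [Pi.zero_apply]
        positivity
      refine le_trans ?_ h5
      apply norm_integral_le_of_norm_le (hgi.norm.const_mul _).integrableOn
      filter_upwards with y
      rw [norm_div, norm_pow]
      rcases le_total R ‖y‖ with h3 | h3
      · rw [hs y h3]; simp
      · have h4 : ‖z‖ / 2 ≤ ‖z - y‖ := by
          have := norm_sub_norm_le z y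
          linarith
        have h6 : (‖z‖ / 2) ^ 2 ≤ ‖z - y‖ ^ 2 := by
          apply pow_le_pow_left₀ (by positivity) h4
        calc ‖g y‖ / ‖z - y‖ ^ 2 ≤ ‖g y‖ / (‖z‖ / 2) ^ 2 := by
              apply div_le_div_of_nonneg_left (norm_nonneg _) (by positivity) h6
          _ = _ := by
              field_simp
              ring
    have h2 : dzb (Cg g) z = 0 := by
      rw [hdzb]
      apply hs
      linarith
    have h3 : ‖fderiv ℝ (Cg g) z‖ ≤ ‖dz (Cg g) z‖ := by
      apply ContinuousLinearMap.opNorm_le_bound _ (norm_nonneg _)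
      intro v
      have h4 : fderiv ℝ (Cg g) z v = dz (Cg g) z * v := by
        have h5 : fderiv ℝ (Cg g) z I = I * fderiv ℝ (Cg g) z 1 := by
          have h6 : fderiv ℝ (Cg g) z 1 + I * fderiv ℝ (Cg g) z I = 0 := by
            unfold dzb at h2
            have h7 : (1 / 2 : ℂ) ≠ 0 := by norm_num
            exact (mul_eq_zero.1 h2).resolve_left h7
          linear_combination (-I) * h6 + (fderiv ℝ (Cg g) z I) * I_sq
        rw [lin_eq _ v]
        unfold dz
        rw [h5]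
        have h8 : v = (v.re : ℂ) + (v.im : ℂ) * I := (re_add_im v).symm
        conv_rhs => rw [h8]
        linear_combination ((1 / 2 : ℂ) * (fderiv ℝ (Cg g) z 1) * (v.re + v.im * I)) * I_sq
      rw [h4, norm_mul]
    calc ‖fderiv ℝ (Cg g) z‖ * (1 + ‖z‖ ^ 2) ≤ (Real.pi⁻¹ * (4 / ‖z‖ ^ 2) * A) * (2 * ‖z‖ ^ 2) := by
          apply mul_le_mul (h3.trans h1) (by nlinarith) (by positivity) (by positivity)
      _ = Real.pi⁻¹ * 8 * A := by
          field_simp
          ring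
  have hcont : Continuous (Cg g) := hsm.continuous
  have hcd : Continuous (fderiv ℝ (Cg g)) := hsm.continuous_fderiv (by simp)
  obtain ⟨C1, hC1⟩ := bdd_of (F := fun z => ‖Cg g z‖ * (1 + ‖z‖)) (by fun_prop) b1
  obtain ⟨C2, hC2⟩ := bdd_of (F := fun z => ‖fderiv ℝ (Cg g) z‖ * (1 + ‖z‖ ^ 2)) (by fun_prop) b2
  exact ⟨max C1 C2, fun z => ⟨(hC1 z).trans (le_max_left _ _), (hC2 z).trans (le_max_right _ _)⟩⟩

end Pool.Agent.W883.IW.Pv
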